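import Mathlib

open scoped ENNReal Topology
open Filter Set

namespace Pool.Agent.H.Rot

/-- A finitely additive averaging functional on `[0,∞]`-valued functions. -/
structure Mean (X : Type) where
  E : (X → ℝ≥0∞) → ℝ≥0∞
  add : ∀ f g, E (fun x => f x + g x) = E f + E g
  mono : ∀ f g, (∀ x, f x ≤ g x) → E f ≤ E g
  smul : ∀ (c : ℝ≥0∞) f, c ≠ ∞ → E (fun x => c * f x) = c * E f
  one : E (fun _ => 1) = 1

namespace Mean
variable {X Y : Type}

lemma const (m : Mean X) {c : ℝ≥0∞} (hc : c ≠ ∞) : m.E (fun _ => c) = c := by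
  have := m.smul c (fun _ => 1) hc
  simpa [m.one] using this

lemma zero (m : Mean X) : m.E (fun _ => 0) = 0 := m.const (by simp)

lemma le_const (m : Mean X) {f : X → ℝ≥0∞} {c : ℝ≥0∞} (h : ∀ x, f x ≤ c) : m.E f ≤ c := by
  by_cases hc : c = ∞
  · simp [hc]
  · exact (m.mono _ _ h).trans (m.const hc).le

lemma sum {ι : Type} (m : Mean X) (s : Finset ι) (f : ι → X → ℝ≥0∞) :
    m.E (fun x => ∑ i ∈ s, f i x) = ∑ i ∈ s, m.E (f i) := by
  classical
  induction s using Finset.induction_on with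
  | empty => simpa using m.zero
  | insert a s ha ih =>
    simp only [Finset.sum_insert ha]
    rw [m.add, ih]

def dirac (x : X) : Mean X where
  E h := h x
  add _ _ := rfl
  mono _ _ h := h x
  smul _ _ _ := rfl
  one := rfl

def bind (m : Mean X) (k : X → Mean Y) : Mean Y where
  E h := m.E (fun x => (k x).E h)
  add f g := by simp only [Mean.add]
  mono f g h := m.mono _ _ fun x => (k x).mono _ _ h
  smul c f hc := by simp only [Mean.smul _ _ _ hc]
  one := by simp only [Mean.one]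

def map (m : Mean X) (g : X → Y) : Mean Y where
  E h := m.E (fun x => h (g x))
  add _ _ := m.add _ _
  mono _ _ h := m.mono _ _ fun x => h (g x)
  smul c _ hc := m.smul c _ hc
  one := m.one

end Mean

open Classical in
noncomputable def ind (p : Prop) : ℝ≥0∞ := if p then 1 else 0

lemma ind_pos {p : Prop} (h : p) : ind p = 1 := by simp [ind, h]
lemma ind_neg {p : Prop} (h : ¬ p) : ind p = 0 := by simp [ind, h]
lemma ind_le_one (p : Prop) : ind p ≤ 1 := by by_cases h : p <;> simp [ind, h]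
lemma ind_ne_top (p : Prop) : ind p ≠ ∞ := by by_cases h : p <;> simp [ind, h]
lemma ind_mono {p q : Prop} (h : p → q) : ind p ≤ ind q := by
  by_cases hp : p
  · simp [ind, hp, h hp]
  · simp [ind, hp]
lemma ind_or {p q r : Prop} (h : p → q ∨ r) : ind p ≤ ind q + ind r := by
  by_cases hp : p
  · rw [ind_pos hp]
    rcases h hp with hq | hr
    · rw [ind_pos hq]; exact le_self_add
    · rw [ind_pos hr]; exact le_add_self
  · simp [ind_neg hp]

section Sing
variable {X Y : Type} (α : Mean X) (β : Mean Y) (H : X → Y → Prop)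

def Sing (C : Set X) (D : Set Y) : Prop :=
  ∀ ε : ℝ≥0∞, 0 < ε → ∃ Z : X → Y → Prop, (range Z).Finite ∧
    α.E (fun x => β.E (fun y => ind (x ∈ C ∧ y ∈ D ∧ H x y ∧ ¬ Z x y))) ≤ ε ∧
    β.E (fun y => α.E (fun x => ind (x ∈ C ∧ y ∈ D ∧ H x y ∧ Z x y))) ≤ ε

lemma finite_flip {Z : X → Y → Prop} (h : (range Z).Finite) :
    (range (fun y x => ¬ Z x y)).Finite := by
  haveI := h.to_subtype
  let Φ : (range Z → Prop) → (X → Prop) := fun g x => ¬ g ⟨Z x, mem_range_self x⟩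
  refine (finite_range Φ).subset ?_
  rintro _ ⟨y, rfl⟩
  exact ⟨fun r => r.1 y, rfl⟩

variable {α β H}

lemma Sing.symm {C : Set X} {D : Set Y} (h : Sing α β H C D) :
    Sing β α (fun y x => H x y) D C := by
  intro ε hε
  obtain ⟨Z, hZ, h1, h2⟩ := h ε hε
  refine ⟨fun y x => ¬ Z x y, finite_flip hZ, ?_, ?_⟩
  · refine le_trans (β.mono _ _ fun y => α.mono _ _ fun x => ind_mono ?_) h2
    rintro ⟨a, b, c, d⟩
    exact ⟨b, a, c, not_not.1 d⟩
  · refine le_trans (α.mono _ _ fun x => β.mono _ _ fun y => ind_mono ?_) h1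
    rintro ⟨a, b, c, d⟩
    exact ⟨b, a, c, d⟩

lemma Sing.empty (C : Set X) : Sing α β H C ∅ := by
  intro ε _
  refine ⟨fun _ _ => True, ?_, ?_, ?_⟩
  · exact (finite_singleton (fun _ => True)).subset (by rintro _ ⟨x, rfl⟩; rfl)
  · exact α.le_const fun x => β.le_const fun y => by rw [ind_neg (by simp)]; simp
  · exact β.le_const fun x => α.le_const fun y => by rw [ind_neg (by simp)]; simp

lemma Sing.union {C : Set X} {D1 D2 : Set Y} (h1 : Sing α β H C D1) (h2 : Sing α β H C D2) :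
    Sing α β H C (D1 ∪ D2) := by
  intro ε hε
  have hε2 : 0 < ε / 2 := ENNReal.half_pos hε.ne'
  obtain ⟨Z1, f1, a1, b1⟩ := h1 _ hε2
  obtain ⟨Z2, f2, a2, b2⟩ := h2 _ hε2
  refine ⟨fun x y => (y ∈ D1 ∧ Z1 x y) ∨ (y ∉ D1 ∧ Z2 x y), ?_, ?_, ?_⟩
  · refine (f1.image2 (fun (p q : Y → Prop) y => (y ∈ D1 ∧ p y) ∨ (y ∉ D1 ∧ q y)) f2).subset ?_
    rintro _ ⟨x, rfl⟩
    exact ⟨_, mem_range_self x, _, mem_range_self x, rfl⟩
  · rw [← ENNReal.add_halves ε]
    refine le_trans ?_ (add_le_add a1 a2)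
    rw [← α.add]
    refine α.mono _ _ fun x => ?_
    rw [← β.add]
    refine β.mono _ _ fun y => ind_or ?_
    rintro ⟨a, b, c, d⟩
    by_cases hy : y ∈ D1
    · exact Or.inl ⟨a, hy, c, fun hz => d (Or.inl ⟨hy, hz⟩)⟩
    · exact Or.inr ⟨a, b.resolve_left hy, c, fun hz => d (Or.inr ⟨hy, hz⟩)⟩
  · rw [← ENNReal.add_halves ε]
    refine le_trans ?_ (add_le_add b1 b2)
    rw [← β.add]
    refine β.mono _ _ fun y => ?_
    rw [← α.add]
    refine α.mono _ _ fun x => ind_or ?_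
    rintro ⟨a, b, c, d⟩
    rcases d with ⟨hy, hz⟩ | ⟨hy, hz⟩
    · exact Or.inl ⟨a, hy, c, hz⟩
    · exact Or.inr ⟨a, b.resolve_left hy, c, hz⟩

lemma Sing.step {C : Set X} {D : Set Y} (N : Set X) (hN : α.E (fun x => ind (x ∈ N)) = 0)
    (h : ∀ a ∈ C, a ∉ N → Sing α β H C (D ∩ {y | H a y})) : Sing α β H C D := by
  intro ε hε
  by_cases hεt : ε = ∞
  · exact ⟨fun _ _ => True, (finite_singleton (fun _ => True)).subset
      (by rintro _ ⟨x, rfl⟩; rfl), by simp [hεt], by simp [hεt]⟩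
  have hε2 : 0 < ε / 2 := ENNReal.half_pos hε.ne'
  have hε2t : ε / 2 ≠ ∞ := ENNReal.div_ne_top hεt (by simp)
  set s : ℝ≥0∞ := ⨆ D' : {D' : Set Y // Sing α β H C D'}, β.E (fun y => ind (y ∈ D'.1)) with hs
  have hs1 : s ≤ 1 := iSup_le fun D' => β.le_const fun y => ind_le_one _
  have hex : ∃ D' : Set Y, Sing α β H C D' ∧ s ≤ β.E (fun y => ind (y ∈ D')) + ε / 2 := by
    by_cases h0 : s = 0
    · exact ⟨∅, Sing.empty C, by simp [h0]⟩
    · have : s - ε / 2 < s := ENNReal.sub_lt_self (ne_top_of_le_ne_top (by simp) hs1) h0 hε2.ne'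
      rw [hs, lt_iSup_iff] at this
      obtain ⟨D', hD'⟩ := this
      exact ⟨D'.1, D'.2, tsub_le_iff_right.1 hD'.le⟩
  obtain ⟨D', hD', hsD⟩ := hex
  have key : ∀ a ∈ C, a ∉ N → β.E (fun y => ind (y ∈ D ∧ H a y ∧ y ∉ D')) ≤ ε / 2 := by
    intro a ha haN
    have h1 : β.E (fun y => ind (y ∈ D' ∪ (D ∩ {y | H a y}))) ≤ s :=
      le_iSup (fun D' : {D' : Set Y // Sing α β H C D'} => β.E (fun y => ind (y ∈ D'.1)))
        ⟨_, hD'.union (h a ha haN)⟩
    have h2 : β.E (fun y => ind (y ∈ D')) + β.E (fun y => ind (y ∈ D ∧ H a y ∧ y ∉ D')) ≤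
        β.E (fun y => ind (y ∈ D' ∪ (D ∩ {y | H a y}))) := by
      rw [← β.add]
      refine β.mono _ _ fun y => ?_
      by_cases hy : y ∈ D'
      · rw [ind_neg (p := y ∈ D ∧ H a y ∧ y ∉ D') (fun h => h.2.2 hy), add_zero]
        exact ind_mono fun _ => Or.inl hy
      · rw [ind_neg hy, zero_add]
        exact ind_mono fun h => Or.inr ⟨h.1, h.2.1⟩
    have hfin : β.E (fun y => ind (y ∈ D')) ≠ ∞ :=
      ne_top_of_le_ne_top (by simp) (β.le_const (c := 1) fun y => ind_le_one _)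
    exact ENNReal.le_of_add_le_add_left hfin (h2.trans (h1.trans hsD))
  obtain ⟨Z, fZ, a1, b1⟩ := hD' _ hε2
  refine ⟨fun x y => Z x y ∧ y ∈ D', ?_, ?_, ?_⟩
  · refine (fZ.image (fun (p : Y → Prop) y => p y ∧ y ∈ D')).subset ?_
    rintro _ ⟨x, rfl⟩
    exact ⟨_, mem_range_self x, rfl⟩
  · have a2 : α.E (fun x => β.E (fun y => ind (x ∈ C ∧ y ∈ D ∧ H x y ∧ y ∉ D'))) ≤ ε / 2 := by
      have : α.E (fun x => ε / 2 + ind (x ∈ N)) = ε / 2 := by
        rw [α.add, hN, α.const hε2t, add_zero]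
      rw [← this]
      refine α.mono _ _ fun x => ?_
      by_cases hxN : x ∈ N
      · rw [ind_pos hxN]
        exact (β.le_const fun y => ind_le_one _).trans le_add_self
      · by_cases hxC : x ∈ C
        · refine le_trans (le_trans (β.mono _ _ fun y => ind_mono fun h => h.2) (key x hxC hxN))
            le_self_add
        · exact (β.le_const (c := 0) fun y => by rw [ind_neg fun h => hxC h.1]).trans (by simp)
    rw [← ENNReal.add_halves ε]
    refine le_trans ?_ (add_le_add a1 a2)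
    rw [← α.add]
    refine α.mono _ _ fun x => ?_
    rw [← β.add]
    refine β.mono _ _ fun y => ind_or ?_
    rintro ⟨a, b, c, d⟩
    by_cases hy : y ∈ D'
    · exact Or.inl ⟨a, hy, c, fun hz => d ⟨hz, hy⟩⟩
    · exact Or.inr ⟨a, b, c, hy⟩
  · refine le_trans ?_ (b1.trans ENNReal.half_le_self)
    refine β.mono _ _ fun y => α.mono _ _ fun x => ind_mono ?_
    rintro ⟨a, b, c, d⟩
    exact ⟨a, d.2, c, d.1⟩

/-- Non-singularity yields an infinite complete bipartite pattern. -/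
theorem pattern (s : X → ℕ) (t : Y → ℕ)
    (hs : ∀ M, α.E (fun x => ind (s x ≤ M)) = 0) (ht : ∀ M, β.E (fun y => ind (t y ≤ M)) = 0)
    (h : ¬ Sing α β H univ univ) :
    ∃ (a : ℕ → X) (b : ℕ → Y), (∀ i, i < s (a i)) ∧ (∀ j, j < t (b j)) ∧ ∀ i j, H (a i) (b j) := by
  have st : ∀ (M : ℕ) (p : {p : Set X × Set Y // ¬ Sing α β H p.1 p.2}),
      ∃ q : X × Y × {p : Set X × Set Y // ¬ Sing α β H p.1 p.2},
        M < s q.1 ∧ M < t q.2.1 ∧ q.1 ∈ p.1.1 ∧ q.2.1 ∈ p.1.2 ∧ H q.1 q.2.1 ∧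
        q.2.2.1.1 = p.1.1 ∩ {x | H x q.2.1} ∧ q.2.2.1.2 = p.1.2 ∩ {y | H q.1 y} := by
    rintro M ⟨⟨C, D⟩, hp⟩
    have e1 : ∃ a ∈ C, M < s a ∧ ¬ Sing α β H C (D ∩ {y | H a y}) := by
      by_contra hc
      push Not at hc
      exact hp (Sing.step {x | s x ≤ M} (hs M) fun a ha hN => hc a ha (by simpa using hN))
    obtain ⟨a, ha, hMa, h1⟩ := e1
    have e2 : ∃ b ∈ D ∩ {y | H a y}, M < t b ∧
        ¬ Sing α β H (C ∩ {x | H x b}) (D ∩ {y | H a y}) := by
      by_contra hc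
      push Not at hc
      exact h1 (Sing.step (α := β) (β := α) (H := fun y x => H x y) {y | t y ≤ M} (ht M)
        fun b hb hN => (hc b hb (by simpa using hN)).symm).symm
    obtain ⟨b, hb, hMb, h2⟩ := e2
    exact ⟨(a, b, ⟨(C ∩ {x | H x b}, D ∩ {y | H a y}), h2⟩), hMa, hMb, ha, hb.1, hb.2, rfl, rfl⟩
  choose F hF using st
  let P : ℕ → {p : Set X × Set Y // ¬ Sing α β H p.1 p.2} := fun n =>
    Nat.rec ⟨(univ, univ), h⟩ (fun n p => (F n p).2.2) n
  have hP : ∀ n, P (n + 1) = (F n (P n)).2.2 := fun n => rfl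
  have m1 : Antitone fun n => (P n).1.1 := antitone_nat_of_succ_le fun n => by
    show (P (n+1)).1.1 ⊆ _
    rw [hP, (hF n (P n)).2.2.2.2.2.1]; exact inter_subset_left
  have m2 : Antitone fun n => (P n).1.2 := antitone_nat_of_succ_le fun n => by
    show (P (n+1)).1.2 ⊆ _
    rw [hP, (hF n (P n)).2.2.2.2.2.2]; exact inter_subset_left
  refine ⟨fun n => (F n (P n)).1, fun n => (F n (P n)).2.1, fun i => (hF i _).1,
    fun j => (hF j _).2.1, fun i j => ?_⟩
  rcases lt_trichotomy i j with hij | rfl | hij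
  · have : (F j (P j)).2.1 ∈ (P (i+1)).1.2 := m2 (Nat.succ_le_of_lt hij) (hF j (P j)).2.2.2.1
    rw [hP, (hF i (P i)).2.2.2.2.2.2] at this
    exact this.2
  · exact (hF i (P i)).2.2.2.2.1
  · have : (F i (P i)).1 ∈ (P (j+1)).1.1 := m1 (Nat.succ_le_of_lt hij) (hF i (P i)).2.2.1
    rw [hP, (hF j (P j)).2.2.2.2.2.1] at this
    exact this.2

end Sing

end Pool.Agent.H.Rot
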