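import Pool.Agent.H.MP_2e62d5_co.A

open scoped ENNReal Topology
open Filter Set

namespace Pool.Agent.H.Rot

variable {G : Type}

def En (μ : Mean G) : ℕ → Mean (List G)
  | 0 => Mean.dirac []
  | n + 1 => μ.bind (fun z => (En μ n).map (fun l => z :: l))

variable (μ : Mean G)

lemma En_zero (h : List G → ℝ≥0∞) : (En μ 0).E h = h [] := rfl
lemma En_succ (n : ℕ) (h : List G → ℝ≥0∞) :
    (En μ (n + 1)).E h = μ.E (fun z => (En μ n).E (fun l => h (z :: l))) := rfl

lemma En_add (a b : ℕ) (h : List G → ℝ≥0∞) :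
    (En μ (a + b)).E h = (En μ a).E (fun l => (En μ b).E (fun r => h (l ++ r))) := by
  induction a generalizing h with
  | zero => simp [En_zero]
  | succ a ih =>
    rw [Nat.succ_add, En_succ, En_succ]
    simp only [ih, List.cons_append]

lemma En_snoc (n : ℕ) (h : List G → ℝ≥0∞) :
    (En μ (n + 1)).E h = (En μ n).E (fun l => μ.E (fun z => h (l ++ [z]))) := by
  rw [En_add]; rfl

lemma En_mono (n : ℕ) {h g : List G → ℝ≥0∞} (hh : ∀ l, l.length = n → h l ≤ g l) :
    (En μ n).E h ≤ (En μ n).E g := by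
  induction n generalizing h g with
  | zero => exact hh [] rfl
  | succ n ih =>
    rw [En_succ, En_succ]
    exact μ.mono _ _ fun z => ih fun l hl => hh _ (by simp [hl])

lemma exists_up (ε : ℝ≥0∞) (h0 : ε ≠ 0) (ht : ε ≠ ∞) :
    ∃ U : ℝ≥0∞ → ℝ≥0∞, (range U).Finite ∧
      ∀ v, U v ≠ 0 ∧ U v ≠ ∞ ∧ (v ≤ 1 → v ≤ U v ∧ U v ≤ v + ε) := by
  classical
  obtain ⟨n0, hn0⟩ := ENNReal.exists_nat_mul_gt h0 (show (1 : ℝ≥0∞) ≠ ∞ by simp)
  have ex : ∀ v : ℝ≥0∞, ∃ m : ℕ, min v 1 < m * ε := fun v => ⟨n0, (min_le_right _ _).trans_lt hn0⟩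
  refine ⟨fun v => (Nat.find (ex v) : ℝ≥0∞) * ε, ?_, fun v => ?_⟩
  · refine ((finite_le_nat n0).image (fun m : ℕ => (m : ℝ≥0∞) * ε)).subset ?_
    rintro _ ⟨v, rfl⟩
    exact ⟨_, Nat.find_min' (ex v) ((min_le_right _ _).trans_lt hn0), rfl⟩
  · have h1 := Nat.find_spec (ex v)
    refine ⟨(lt_of_le_of_lt (by simp) h1).ne', ENNReal.mul_ne_top (by simp) ht, fun hv => ?_⟩
    refine ⟨((min_eq_left hv).symm.trans_lt h1).le, ?_⟩
    rcases Nat.eq_zero_or_eq_succ_pred (Nat.find (ex v)) with h | h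
    · show (Nat.find (ex v) : ℝ≥0∞) * ε ≤ _
      rw [h]; simp
    · have h2 := Nat.find_min (ex v) (m := (Nat.find (ex v)).pred) (by omega)
      replace h2 := (not_lt.1 h2).trans_eq (min_eq_left hv)
      show (Nat.find (ex v) : ℝ≥0∞) * ε ≤ _
      rw [h]
      push_cast
      rw [add_mul, one_mul]
      exact add_le_add h2 le_rfl

def atom {X K : Type} (F : X → K) (x : X) : Set X := {x' | F x' = F x}

lemma atom_finite {X K : Type} {F : X → K} (h : (range F).Finite) : (range (atom F)).Finite := by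
  refine (h.image (fun k => {x' | F x' = k})).subset ?_
  rintro _ ⟨x, rfl⟩
  exact ⟨_, mem_range_self x, rfl⟩

lemma atom_eq {X K : Type} {F : X → K} {x x' : X} (h : atom F x = atom F x') : F x = F x' := by
  have : x ∈ atom F x := rfl
  rw [h] at this
  exact this

/-- One level of the hierarchy. -/
lemma level {K : Type} (φ : List G → K) (hφ : (range φ).Finite) (η : ℝ≥0∞) (h0 : η ≠ 0)
    (ht : η ≠ ∞) (θ : List G → Set (List G)) (hθ : (range θ).Finite) :
    ∃ (θ' : List G → Set (List G)) (u : List G → Set (List G) → ℝ≥0∞) (e : ℝ≥0∞),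
      (range θ').Finite ∧ (∀ l l', θ' l = θ' l' → φ l = φ l') ∧
      (∀ l l' x, θ' l = θ' l' → u l (θ x) = u l' (θ x)) ∧
      (∀ l c, u l c ≠ 0 ∧ u l c ≠ ∞ ∧ μ.E (fun z => ind (θ (l ++ [z]) = c)) ≤ u l c ∧
        u l c ≤ μ.E (fun z => ind (θ (l ++ [z]) = c)) + e) ∧ e ≠ ∞ ∧
      ∀ l, μ.E (fun z => e * (u l (θ (l ++ [z])))⁻¹) ≤ η := by
  classical
  set k : ℕ := hθ.toFinset.card + 1 with hk
  have hk0 : (k : ℝ≥0∞) ≠ 0 := by simp [hk]
  have he0 : η / k ≠ 0 := (ENNReal.div_pos h0 (by simp)).ne'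
  have het : η / k ≠ ∞ := ENNReal.div_ne_top ht hk0
  obtain ⟨U, hU, hU'⟩ := exists_up (η / k) he0 het
  let v : List G → Set (List G) → ℝ≥0∞ := fun l c => μ.E (fun z => ind (θ (l ++ [z]) = c))
  have hv : ∀ l c, v l c ≤ 1 := fun l c => μ.le_const fun z => ind_le_one _
  let F : List G → K × (range θ → ℝ≥0∞) := fun l => (φ l, fun c => U (v l c))
  have hF : (range F).Finite := by
    haveI := hθ.to_subtype
    refine (hφ.prod (Set.Finite.pi' (fun _ : range θ => hU))).subset ?_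
    rintro _ ⟨l, rfl⟩
    exact ⟨mem_range_self l, fun c => mem_range_self _⟩
  refine ⟨atom F, fun l c => U (v l c), η / k, atom_finite hF,
    fun l l' h => congrArg Prod.fst (atom_eq h),
    fun l l' x h => congrFun (congrArg Prod.snd (atom_eq h)) ⟨θ x, mem_range_self x⟩,
    fun l c => ⟨(hU' _).1, (hU' _).2.1, ((hU' _).2.2 (hv l c)).1, ((hU' _).2.2 (hv l c)).2⟩,
    het, fun l => ?_⟩
  calc μ.E (fun z => η / k * (U (v l (θ (l ++ [z]))))⁻¹)
      ≤ μ.E (fun z => ∑ c ∈ hθ.toFinset, (η / k * (U (v l c))⁻¹) * ind (θ (l ++ [z]) = c)) := by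
        refine μ.mono _ _ fun z => ?_
        refine le_trans ?_ (Finset.single_le_sum
          (f := fun c => (η / k * (U (v l c))⁻¹) * ind (θ (l ++ [z]) = c))
          (fun _ _ => by simp) (hθ.mem_toFinset.2 (mem_range_self (l ++ [z]))))
        simp [ind_pos]
    _ = ∑ c ∈ hθ.toFinset, (η / k * (U (v l c))⁻¹) * v l c := by
        rw [μ.sum]
        refine Finset.sum_congr rfl fun c _ => μ.smul _ _ ?_
        exact ENNReal.mul_ne_top het (ENNReal.inv_ne_top.2 (hU' _).1)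
    _ ≤ ∑ c ∈ hθ.toFinset, η / k := by
        refine Finset.sum_le_sum fun c _ => ?_
        rw [mul_assoc]
        refine mul_le_of_le_one_right' ?_
        calc (U (v l c))⁻¹ * v l c ≤ (U (v l c))⁻¹ * U (v l c) :=
              mul_le_mul_right ((hU' _).2.2 (hv l c)).1 _
          _ = 1 := ENNReal.inv_mul_cancel (hU' _).1 (hU' _).2.1
    _ ≤ k * (η / k) := by
        rw [Finset.sum_const, nsmul_eq_mul]
        exact mul_le_mul_left (by simp [hk]) _
    _ ≤ η := ENNReal.mul_div_le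

/-- The hierarchical labelling of prefixes. -/
structure Hier {K : Type} (φ : List G → K) (N : ℕ) (η : ℝ≥0∞) where
  Θ : List G → Set (List G)
  u : List G → Set (List G) → ℝ≥0∞
  e : ℕ → ℝ≥0∞
  fin : (range Θ).Finite
  h1 : ∀ l l', l.length = l'.length → Θ l = Θ l' → φ l = φ l'
  h2 : ∀ l l' z, l.length = l'.length → l.length < N → Θ l = Θ l' →
    u l (Θ (l ++ [z])) = u l' (Θ (l ++ [z]))
  h3 : ∀ l c, u l c ≠ 0 ∧ u l c ≠ ∞ ∧ μ.E (fun z => ind (Θ (l ++ [z]) = c)) ≤ u l c ∧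
    u l c ≤ μ.E (fun z => ind (Θ (l ++ [z]) = c)) + e l.length
  h4 : ∀ j, e j ≠ ∞
  h5 : ∀ l, μ.E (fun z => e l.length * (u l (Θ (l ++ [z])))⁻¹) ≤ η

lemma exists_hier {K : Type} (φ : List G → K) (hφ : (range φ).Finite) (N : ℕ) (η : ℝ≥0∞)
    (h0 : η ≠ 0) (ht : η ≠ ∞) : Nonempty (Hier μ φ N η) := by
  have := fun (θ : {θ : List G → Set (List G) // (range θ).Finite}) =>
    level μ φ hφ η h0 ht θ.1 θ.2
  choose T u e a1 a2 a3 a4 a5 a6 using this
  let th : ℕ → {θ : List G → Set (List G) // (range θ).Finite} := fun n =>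
    Nat.rec ⟨atom φ, atom_finite hφ⟩ (fun _ θ => ⟨T θ, a1 θ⟩) n
  have hs : ∀ n, (th (n + 1)).1 = T (th n) := fun n => rfl
  have hlen : ∀ (l : List G) z, N - (l ++ [z]).length = N - l.length - 1 := fun l z => by
    simp; omega
  refine ⟨⟨fun l => (th (N - l.length)).1 l, fun l => u (th (N - l.length - 1)) l,
    fun j => e (th (N - j - 1)), ?_, ?_, ?_, ?_, fun j => a5 _, ?_⟩⟩
  · refine ((finite_le_nat N).biUnion (t := fun n => range (th n).1) fun n _ => (th n).2).subset ?_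
    rintro _ ⟨l, rfl⟩
    exact mem_biUnion (x := N - l.length) (by simp) (mem_range_self l)
  · intro l l' hl h
    simp only [← hl] at h
    rcases hn : N - l.length with _ | n
    · rw [hn] at h; exact atom_eq (F := φ) h
    · rw [hn, hs] at h; exact a2 _ _ _ h
  · intro l l' z hl hN h
    simp only [← hl, hlen] at h ⊢
    have hn : N - l.length = (N - l.length - 1) + 1 := by omega
    rw [hn, hs] at h
    exact a3 _ _ _ _ h
  · intro l c
    simp only [hlen]
    exact a4 _ l c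
  · intro l
    simp only [hlen]
    exact a6 _ l

end Pool.Agent.H.Rot
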