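import Pool.Agent.H.MP_2e62d5_co.B

open scoped ENNReal Topology
open Filter Set

namespace Pool.Agent.H.Rot

variable {G K : Type} {μ : Mean G} {φ : List G → K} {N : ℕ} {η : ℝ≥0∞}

namespace Hier
variable (T : Hier μ φ N η)

noncomputable def w (x : List G) : ℝ≥0∞ :=
  ∏ j ∈ Finset.range x.length, (T.u (x.take j) (T.Θ (x.take (j + 1))))⁻¹

def R (i : ℕ) (o x : List G) : Prop :=
  x.length = i ∧ ∀ j ≤ i, T.Θ (o.take j) = T.Θ (x.take j)

lemma w_ne_top (x : List G) : T.w x ≠ ∞ :=
  ENNReal.prod_ne_top fun _ _ => ENNReal.inv_ne_top.2 (T.h3 _ _).1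

lemma w_snoc (l : List G) (z : G) : T.w (l ++ [z]) = T.w l * (T.u l (T.Θ (l ++ [z])))⁻¹ := by
  unfold w
  rw [List.length_append, List.length_singleton, Finset.prod_range_succ]
  congr 1
  · refine Finset.prod_congr rfl fun j hj => ?_
    rw [Finset.mem_range] at hj
    rw [List.take_append_of_le_length (by omega), List.take_append_of_le_length (by omega)]
  · rw [List.take_left, List.take_of_length_le (by simp)]

lemma w_eq {i : ℕ} (hi : i ≤ N) {o x : List G} (ho : o.length = i) (h : T.R i o x) :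
    T.w x = T.w o := by
  unfold w
  rw [h.1, ho]
  refine Finset.prod_congr rfl fun j hj => ?_
  rw [Finset.mem_range] at hj
  have h1 := h.1
  have e : o.take (j + 1) = o.take j ++ [o[j]'(by omega)] := by
    rw [List.take_succ_eq_append_getElem]
  rw [← h.2 (j + 1) (by omega), e,
    T.h2 (o.take j) (x.take j) _ (by simp; omega) (by simp; omega) (h.2 j (by omega))]

lemma R_snoc {i : ℕ} {x l : List G} {z : G} (hl : l.length = i) :
    T.R (i + 1) x (l ++ [z]) ↔ T.R i x l ∧ T.Θ (l ++ [z]) = T.Θ (x.take (i + 1)) := by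
  constructor
  · intro h
    refine ⟨⟨hl, fun j hj => ?_⟩, ?_⟩
    · rw [h.2 j (by omega), List.take_append_of_le_length (by omega)]
    · rw [h.2 (i + 1) le_rfl, List.take_of_length_le (by simp [hl])]
  · rintro ⟨h1, h2⟩
    refine ⟨by simp [hl], fun j hj => ?_⟩
    rcases Nat.lt_or_ge j (i + 1) with hj' | hj'
    · rw [h1.2 j (by omega), List.take_append_of_le_length (by omega)]
    · obtain rfl : j = i + 1 := by omega
      rw [← h2, List.take_of_length_le (by simp [hl])]

lemma R_left {i : ℕ} {o s l : List G} (ho : o.length = i) : T.R i (o ++ s) l ↔ T.R i o l := by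
  unfold R
  refine and_congr_right fun _ => forall₂_congr fun j hj => ?_
  rw [List.take_append_of_le_length (by omega)]

lemma F1 {i : ℕ} (x l : List G) (hl : l.length = i) :
    μ.E (fun z => T.w (l ++ [z]) * ind (T.R (i + 1) x (l ++ [z]))) ≤ T.w l * ind (T.R i x l) := by
  set c := T.Θ (x.take (i + 1))
  have hc := T.h3 l c
  calc _ ≤ μ.E (fun z => (T.w l * ind (T.R i x l) * (T.u l c)⁻¹) * ind (T.Θ (l ++ [z]) = c)) := by
        refine μ.mono _ _ fun z => ?_
        by_cases h : T.R (i + 1) x (l ++ [z])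
        · have h' := (T.R_snoc hl).1 h
          rw [ind_pos h, ind_pos h'.1, ind_pos h'.2, w_snoc, h'.2]
          simp [c]
        · simp [ind_neg h]
    _ = (T.w l * ind (T.R i x l) * (T.u l c)⁻¹) * μ.E (fun z => ind (T.Θ (l ++ [z]) = c)) :=
        μ.smul _ _ (ENNReal.mul_ne_top (ENNReal.mul_ne_top (T.w_ne_top _) (ind_ne_top _))
          (ENNReal.inv_ne_top.2 hc.1))
    _ ≤ (T.w l * ind (T.R i x l) * (T.u l c)⁻¹) * T.u l c := mul_le_mul_right hc.2.2.1 _
    _ = _ := by rw [mul_assoc, ENNReal.inv_mul_cancel hc.1 hc.2.1, mul_one]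

lemma F3 (d : ℕ) : ∀ (i : ℕ) (x l : List G), l.length = i →
    (En μ d).E (fun r => T.w (l ++ r) * ind (T.R (i + d) x (l ++ r))) ≤
      T.w l * ind (T.R i x l) := by
  induction d with
  | zero => intro i x l _; simp [En_zero]
  | succ d ih =>
    intro i x l hl
    rw [En_succ]
    refine le_trans (μ.mono _ _ fun z => ?_) (T.F1 x l hl)
    have := ih (i + 1) x (l ++ [z]) (by simp [hl])
    simpa [Nat.add_assoc, Nat.add_comm 1 d] using this

lemma F2 (d : ℕ) (x : List G) : (En μ d).E (fun r => T.w r * ind (T.R d x r)) ≤ 1 := by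
  have := T.F3 d 0 x [] rfl
  simp only [List.nil_append, zero_add] at this
  refine this.trans ?_
  simpa [w] using ind_le_one _

lemma swap {Y : Type} {i : ℕ} (hi : i ≤ N) (F : Mean Y) (p : Y → List G) (g : Y → ℝ≥0∞)
    (hg : ∀ y, g y ≤ 1) :
    (En μ i).E (fun o => F.E (fun y => T.w (p y) * ind (T.R i o (p y)) * g y)) ≤ F.E g := by
  classical
  let κ : List G → (Fin (i + 1) → Set (List G)) := fun x j => T.Θ (x.take j)
  have hκ : (range κ).Finite := by
    refine (Set.Finite.pi' (fun _ : Fin (i + 1) => T.fin)).subset ?_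
    rintro _ ⟨l, rfl⟩
    exact fun j => mem_range_self _
  let b : (Fin (i + 1) → Set (List G)) → ℝ≥0∞ := fun k => F.E (fun y => ind (κ (p y) = k) * g y)
  have hb : ∀ k, b k ≠ ∞ := fun k => ne_top_of_le_ne_top (by simp)
    (F.le_const (c := 1) fun y => mul_le_one' (ind_le_one _) (hg y))
  calc _ ≤ (En μ i).E (fun o => ∑ k ∈ hκ.toFinset, b k * (T.w o * ind (κ o = k))) := by
        refine En_mono μ i fun o ho => ?_
        refine le_trans ?_ (Finset.single_le_sum (f := fun k => b k * (T.w o * ind (κ o = k)))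
          (fun _ _ => by simp) (hκ.mem_toFinset.2 (mem_range_self o)))
        show _ ≤ b (κ o) * (T.w o * ind (κ o = κ o))
        rw [ind_pos rfl, mul_one, mul_comm, ← F.smul _ _ (T.w_ne_top o)]
        refine F.mono _ _ fun y => ?_
        by_cases h : T.R i o (p y)
        · have : κ (p y) = κ o := funext fun j => (h.2 j (Nat.lt_succ_iff.1 j.2)).symm
          rw [ind_pos h, ind_pos this, T.w_eq hi ho h]
          simp
        · simp [ind_neg h]
    _ = ∑ k ∈ hκ.toFinset, b k * (En μ i).E (fun o => T.w o * ind (κ o = k)) := by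
        rw [Mean.sum]
        exact Finset.sum_congr rfl fun k _ => Mean.smul _ _ _ (hb k)
    _ ≤ ∑ k ∈ hκ.toFinset, b k := by
        refine Finset.sum_le_sum fun k hk => mul_le_of_le_one_right' ?_
        obtain ⟨x, rfl⟩ := hκ.mem_toFinset.1 hk
        refine le_trans (En_mono μ i fun o ho => ?_) (T.F2 i x)
        refine mul_le_mul_right (ind_mono fun h => ⟨ho, fun j hj => ?_⟩) _
        exact (congrFun h ⟨j, Nat.lt_succ_of_le hj⟩).symm
    _ ≤ F.E g := by
        rw [← F.sum]
        refine F.mono _ _ fun y => ?_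
        rw [← Finset.sum_mul]
        refine mul_le_of_le_one_left' ?_
        rw [Finset.sum_eq_single (κ (p y))]
        · exact ind_le_one _
        · intro k _ hk
          exact ind_neg fun h => hk h.symm
        · intro h
          exact absurd (hκ.mem_toFinset.2 (mem_range_self _)) h

/-- The coupled functional. -/
noncomputable def J (h : List G → List G → ℝ≥0∞) : ℝ≥0∞ :=
  (En μ (N + 1)).E (fun x => (En μ N).E (fun x' => T.w x' * ind (T.R N x x') * h x x'))

lemma rot {i : ℕ} (hi : i ≤ N) (g : List G → ℝ≥0∞) (hg : ∀ y, g y ≤ 1) :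
    T.J (fun x x' => g (x.drop i ++ x'.take i)) ≤ (En μ (N + 1)).E g := by
  obtain ⟨d, hd⟩ := Nat.exists_eq_add_of_le hi
  have inner : ∀ x : List G,
      (En μ N).E (fun x' => T.w x' * ind (T.R N x x') * g (x.drop i ++ x'.take i)) ≤
      (En μ i).E (fun l => T.w l * ind (T.R i x l) * g (x.drop i ++ l)) := by
    intro x
    have e : ∀ h, (En μ N).E h = (En μ i).E (fun l => (En μ d).E (fun r => h (l ++ r))) :=
      fun h => by rw [← En_add, ← hd]
    rw [e]
    refine En_mono μ i fun l hl => ?_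
    have e2 : ∀ r : List G, (l ++ r).take i = l := fun r => by rw [← hl, List.take_left]
    simp only [e2]
    simp only [mul_comm _ (g (x.drop i ++ l))]
    rw [Mean.smul _ _ _ (ne_top_of_le_ne_top (by simp) (hg _))]
    refine mul_le_mul_right ?_ _
    have := T.F3 d i x l hl
    rwa [← hd] at this
  refine le_trans ((En μ (N + 1)).mono _ _ inner) ?_
  have e : ∀ h, (En μ (N + 1)).E h = (En μ i).E (fun l => (En μ (d + 1)).E (fun r => h (l ++ r))) :=
    fun h => by rw [← En_add, hd, Nat.add_assoc]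
  have e' : ∀ h, (En μ (N + 1)).E h =
      (En μ (d + 1)).E (fun l => (En μ i).E (fun r => h (l ++ r))) :=
    fun h => by rw [← En_add, hd]; congr 2; omega
  rw [e, e']
  refine le_trans (En_mono μ i fun o ho => ?_)
    (T.swap hi ((En μ (d + 1)).bind fun s => (En μ i).map fun l => (s, l)) Prod.snd
      (fun y => g (y.1 ++ y.2)) fun y => hg _)
  refine (En μ (d + 1)).mono _ _ fun s => (En μ i).mono _ _ fun l => ?_
  have e2 : (o ++ s).drop i = s := by rw [← ho, List.drop_left]
  simp only [e2, T.R_left ho]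
  exact le_rfl

noncomputable def M (j : ℕ) : ℝ≥0∞ :=
  (En μ j).E (fun x => (En μ j).E (fun x' => T.w x' * ind (T.R j x x')))

lemma M_zero : T.M 0 = 1 := by
  show T.w [] * ind (T.R 0 [] []) = 1
  rw [ind_pos ⟨rfl, fun _ _ => rfl⟩]
  simp [w]

lemma M_step {j : ℕ} (hj : j < N) : T.M j ≤ T.M (j + 1) + η := by
  have hη : (En μ j).E (fun l => μ.E (fun z => T.e j * (T.u l (T.Θ (l ++ [z])))⁻¹)) ≤ η := by
    by_cases ht : η = ∞
    · simp [ht]
    refine le_trans (En_mono μ j (g := fun _ => η) fun l hl => ?_) (Mean.const _ ht).le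
    rw [← hl]; exact T.h5 l
  refine le_trans ?_ (add_le_add le_rfl hη)
  unfold M
  rw [En_snoc, ← Mean.add]
  refine En_mono μ j fun l hl => ?_
  rw [← Mean.add, ← μ.const (ne_top_of_le_ne_top (by simp) (T.F2 j l))]
  refine μ.mono _ _ fun z => ?_
  set c := T.Θ (l ++ [z]) with hc
  have hq : T.e j * (T.u l c)⁻¹ ≠ ∞ :=
    ENNReal.mul_ne_top (T.h4 j) (ENNReal.inv_ne_top.2 (T.h3 _ _).1)
  refine le_trans ?_ (add_le_add le_rfl (mul_le_of_le_one_right' (T.F2 j l)))
  rw [En_snoc, ← Mean.smul _ _ _ hq, ← Mean.add]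
  refine En_mono μ j fun l' hl' => ?_
  by_cases h : T.R j l l'
  · have hu : T.u l c = T.u l' c := T.h2 l l' z (by omega) (by omega) (by
      have := h.2 j le_rfl
      rwa [List.take_of_length_le hl.le, List.take_of_length_le hl'.le] at this)
    have h3 := T.h3 l' c
    have low : (T.w l' * (T.u l' c)⁻¹) * μ.E (fun z' => ind (T.Θ (l' ++ [z']) = c)) ≤
        μ.E (fun z' => T.w (l' ++ [z']) * ind (T.R (j + 1) (l ++ [z]) (l' ++ [z']))) := by
      rw [← μ.smul _ _ (ENNReal.mul_ne_top (T.w_ne_top _) (ENNReal.inv_ne_top.2 h3.1))]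
      refine μ.mono _ _ fun z' => ?_
      by_cases h' : T.Θ (l' ++ [z']) = c
      · have : T.R (j + 1) (l ++ [z]) (l' ++ [z']) := by
          rw [T.R_snoc hl', T.R_left hl, List.take_of_length_le (by simp [hl])]
          exact ⟨h, h'⟩
        rw [ind_pos h', ind_pos this, w_snoc, h']
      · simp [ind_neg h']
    refine le_trans ?_ (add_le_add low le_rfl)
    rw [ind_pos h, mul_one, hu]
    calc T.w l' = (T.w l' * (T.u l' c)⁻¹) * T.u l' c := by
          rw [mul_assoc, ENNReal.inv_mul_cancel h3.1 h3.2.1, mul_one]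
      _ ≤ (T.w l' * (T.u l' c)⁻¹) * (μ.E (fun z' => ind (T.Θ (l' ++ [z']) = c)) + T.e j) :=
          mul_le_mul_right (by rw [← hl']; exact h3.2.2.2) _
      _ = _ := by ring
  · simp [ind_neg h]

lemma M_ge : ∀ j ≤ N, 1 ≤ T.M j + j * η := by
  intro j
  induction j with
  | zero => intro _; simp [M_zero]
  | succ j ih =>
    intro hj
    refine (ih (by omega)).trans ?_
    refine (add_le_add (T.M_step (by omega)) le_rfl).trans (le_of_eq ?_)
    push_cast; ring

lemma J_one : 1 ≤ T.J (fun _ _ => 1) + N * η := by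
  refine (T.M_ge N le_rfl).trans (add_le_add ?_ le_rfl)
  unfold M J
  rw [En_snoc]
  refine En_mono μ N fun l hl => ?_
  rw [← μ.const (ne_top_of_le_ne_top (by simp) (T.F2 N l))]
  refine μ.mono _ _ fun z => (En μ N).mono _ _ fun x' => ?_
  simp only [T.R_left hl, mul_one]
  exact le_rfl

lemma J_add (f g : List G → List G → ℝ≥0∞) : T.J (fun x y => f x y + g x y) = T.J f + T.J g := by
  unfold J
  simp only [mul_add, Mean.add]

lemma J_smul (c : ℝ≥0∞) (hc : c ≠ ∞) (f : List G → List G → ℝ≥0∞) :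
    T.J (fun x y => c * f x y) = c * T.J f := by
  unfold J
  simp only [mul_left_comm _ c, Mean.smul _ _ _ hc]

lemma J_sum {ι : Type} (s : Finset ι) (f : ι → List G → List G → ℝ≥0∞) :
    T.J (fun x y => ∑ i ∈ s, f i x y) = ∑ i ∈ s, T.J (f i) := by
  unfold J
  simp only [Finset.mul_sum, Mean.sum]

lemma J_mono {f g : List G → List G → ℝ≥0∞}
    (h : ∀ x y, x.length = N + 1 → T.R N x y → f x y ≤ g x y) : T.J f ≤ T.J g := by
  unfold J
  refine En_mono μ _ fun x hx => (En μ N).mono _ _ fun y => ?_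
  by_cases hR : T.R N x y
  · exact mul_le_mul_right (h x y hx hR) _
  · simp [ind_neg hR]

end Hier

end Pool.Agent.H.Rot
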