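import Pool.Agent.H.MP_2e62d5_co.C

open scoped ENNReal Topology
open Filter Set

namespace Pool.Agent.H.Rot

variable {G : Type}

lemma count_ineq (N : ℕ) (p : ℕ → Prop) :
    ((N + 1 : ℕ) : ℝ≥0∞) * 1 ≤ 1 + ∑ i ∈ Finset.range (N + 1), ind (¬ p i) +
      ((N + 1 : ℕ) : ℝ≥0∞) * ∑ q ∈ (Finset.range (N + 1) ×ˢ Finset.range (N + 1)).filter
        (fun q => q.1 < q.2), ind (p q.1 ∧ p q.2) := by
  classical
  by_cases h : ∃ i j, i < j ∧ j < N + 1 ∧ p i ∧ p j
  · obtain ⟨i, j, hij, hj, hp⟩ := h
    refine le_trans (mul_le_mul_right ?_ _) le_add_self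
    refine le_trans (ind_pos hp).ge (Finset.single_le_sum (f := fun q : ℕ × ℕ => ind (p q.1 ∧ p q.2))
      (fun _ _ => by simp) (a := (i, j)) ?_)
    simp only [Finset.mem_filter, Finset.mem_product, Finset.mem_range]
    omega
  · refine le_trans ?_ le_self_add
    have h1 : ((Finset.range (N + 1)).filter p).card ≤ 1 := by
      rw [Finset.card_le_one]
      intro a ha b hb
      simp only [Finset.mem_filter, Finset.mem_range] at ha hb
      by_contra hab
      rcases lt_or_gt_of_ne hab with h' | h'
      · exact h ⟨a, b, h', hb.1, ha.2, hb.2⟩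
      · exact h ⟨b, a, h', ha.1, hb.2, ha.2⟩
    have h2 := Finset.card_filter_add_card_filter_not (s := Finset.range (N + 1)) p
    have h3 : ∑ i ∈ Finset.range (N + 1), ind (¬ p i) =
        (((Finset.range (N + 1)).filter (fun i => ¬ p i)).card : ℝ≥0∞) := by
      rw [Finset.card_filter]
      push_cast
      refine Finset.sum_congr rfl fun i _ => ?_
      by_cases hi : p i <;> simp [ind, hi]
    rw [h3, mul_one]
    rw [Finset.card_range] at h2
    have : N + 1 ≤ 1 + ((Finset.range (N + 1)).filter (fun i => ¬ p i)).card := by omega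
    exact_mod_cast this

theorem rotation (μ : Mean G) (N : ℕ) (f : List G → Prop)
    (hcomm : ∀ a b, f (a ++ b) → f (b ++ a))
    (hS : ∀ k, 1 ≤ k → k ≤ N →
      Sing (En μ k) (En μ (N + 1 - k)) (fun m y => f (m ++ y)) univ univ) :
    (N : ℝ≥0∞) ≤ ((N + 1 : ℕ) : ℝ≥0∞) * (En μ (N + 1)).E (fun l => ind (¬ f l)) := by
  classical
  set γ := (En μ (N + 1)).E (fun l => ind (¬ f l)) with hγ
  have main : ∀ ε : ℝ≥0∞, 0 < ε → ε ≠ ∞ → (N : ℝ≥0∞) ≤ ((N + 1 : ℕ) : ℝ≥0∞) * γ +
      ((2 * (N + 1) ^ 3 + N * N : ℕ) : ℝ≥0∞) * ε := by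
    intro ε hε hεt
    have hZ : ∀ k : ℕ, ∃ Z : List G → List G → Prop, (range Z).Finite ∧ (1 ≤ k → k ≤ N →
        (En μ k).E (fun x => (En μ (N + 1 - k)).E (fun y => ind (f (x ++ y) ∧ ¬ Z x y))) ≤ ε ∧
        (En μ (N + 1 - k)).E (fun y => (En μ k).E (fun x => ind (f (x ++ y) ∧ Z x y))) ≤ ε) := by
      intro k
      by_cases hk : 1 ≤ k ∧ k ≤ N
      · obtain ⟨Z, hZ, h1, h2⟩ := hS k hk.1 hk.2 ε hε
        exact ⟨Z, hZ, fun _ _ => ⟨by simpa using h1, by simpa using h2⟩⟩
      · exact ⟨fun _ _ => True, (finite_singleton (fun _ => True)).subset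
          (by rintro _ ⟨x, rfl⟩; rfl), fun a b => absurd ⟨a, b⟩ hk⟩
    choose Z hZf hZ using hZ
    let φ : List G → (Fin (N + 1) × Fin (N + 1) → List G → Prop) :=
      fun l q => Z q.1 (l.drop q.2)
    have hφ : (range φ).Finite := by
      refine (Set.Finite.pi' (fun q : Fin (N + 1) × Fin (N + 1) => hZf q.1)).subset ?_
      rintro _ ⟨l, rfl⟩
      exact fun q => mem_range_self _
    obtain ⟨T⟩ := exists_hier μ φ hφ N ε hε.ne' hεt
    let r : ℕ → List G → List G → List G := fun i x x' => x.drop i ++ x'.take i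
    have pair : ∀ i j, i < j → j ≤ N →
        T.J (fun x x' => ind (f (r i x x') ∧ f (r j x x'))) ≤ 2 * ε := by
      intro i j hij hj
      obtain ⟨k, rfl⟩ := Nat.exists_eq_add_of_le hij.le
      have hk1 : 1 ≤ k := by omega
      have hkN : k ≤ N := by omega
      let gA : List G → ℝ≥0∞ := fun w => ind (f w ∧ ¬ Z k (w.take k) (w.drop k))
      let gB : List G → ℝ≥0∞ := fun w =>
        ind (f w ∧ Z k (w.drop (N + 1 - k)) (w.take (N + 1 - k)))
      have hA : (En μ (N + 1)).E gA ≤ ε := by
        rw [show N + 1 = k + (N + 1 - k) by omega, En_add]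
        refine le_trans (En_mono μ k fun m hm => (En μ _).mono _ _ fun y => ?_) (hZ k hk1 hkN).1
        refine ind_mono fun h => ?_
        rwa [← hm, List.take_left, List.drop_left, hm] at h
      have hB : (En μ (N + 1)).E gB ≤ ε := by
        have e : ∀ h, (En μ (N + 1)).E h =
            (En μ (N + 1 - k)).E (fun l => (En μ k).E (fun r => h (l ++ r))) :=
          fun h => by rw [← En_add]; congr 2; omega
        rw [e]
        refine le_trans (En_mono μ _ fun y hy => (En μ _).mono _ _ fun m => ?_) (hZ k hk1 hkN).2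
        refine ind_mono fun h => ?_
        rw [← hy, List.take_left, List.drop_left] at h
        exact ⟨hcomm _ _ h.1, h.2⟩
      calc _ ≤ T.J (fun x x' => gA (r i x x') + gB (r (i + k) x x')) := by
            refine T.J_mono fun x x' hx hR => ind_or ?_
            rintro ⟨h1, h2⟩
            have hx' := hR.1
            have e1 : (r i x x').take k = (x.take (i + k)).drop i := by
              simp only [r]
              rw [List.take_append_of_le_length (by simp; omega), List.drop_take]
              congr 1; omega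
            have e2 : (r i x x').drop k = x.drop (i + k) ++ x'.take i := by
              simp only [r]
              rw [List.drop_append_of_le_length (by simp; omega), List.drop_drop]
            have hl : (x.drop (i + k) ++ x'.take i).length = N + 1 - k := by
              simp; omega
            have e0 : r (i + k) x x' = (x.drop (i + k) ++ x'.take i) ++ (x'.take (i + k)).drop i := by
              simp only [r]
              rw [List.append_assoc]
              congr 1
              conv_lhs => rw [← List.take_append_drop i (x'.take (i + k))]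
              rw [List.take_take, min_eq_left (by omega)]
            have e3 : (r (i + k) x x').take (N + 1 - k) = x.drop (i + k) ++ x'.take i := by
              rw [e0, ← hl, List.take_left]
            have e4 : (r (i + k) x x').drop (N + 1 - k) = (x'.take (i + k)).drop i := by
              rw [e0, ← hl, List.drop_left]
            have e5 : Z k ((x.take (i + k)).drop i) = Z k ((x'.take (i + k)).drop i) :=
              congrFun (T.h1 _ _ (by simp; omega) (hR.2 (i + k) hj))
                (⟨k, by omega⟩, ⟨i, by omega⟩)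
            rw [e1, e2, e3, e4, e5]
            by_cases hz : Z k ((x'.take (i + k)).drop i) (x.drop (i + k) ++ x'.take i)
            · exact Or.inr ⟨h2, hz⟩
            · exact Or.inl ⟨h1, hz⟩
        _ ≤ ε + ε := by
            rw [T.J_add]
            exact add_le_add ((T.rot (by omega) gA fun _ => ind_le_one _).trans hA)
              ((T.rot hj gB fun _ => ind_le_one _).trans hB)
        _ = 2 * ε := (two_mul ε).symm
    set M := T.J (fun _ _ => 1) with hM
    have hM1 : M ≤ 1 := by
      have := T.rot (i := 0) (by omega) (fun _ => 1) fun _ => le_rfl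
      rwa [Mean.one] at this
    have big := T.J_mono (f := fun _ _ => ((N + 1 : ℕ) : ℝ≥0∞) * 1)
      (fun x x' _ _ => count_ineq N (fun i => f (r i x x')))
    rw [T.J_smul _ (by simp), T.J_add, T.J_add, T.J_smul _ (by simp), T.J_sum, T.J_sum] at big
    have s1 : ∑ i ∈ Finset.range (N + 1), T.J (fun x x' => ind (¬ f (r i x x'))) ≤
        ((N + 1 : ℕ) : ℝ≥0∞) * γ := by
      refine (Finset.sum_le_card_nsmul _ _ γ fun i hi => ?_).trans (by simp)
      exact T.rot (Nat.lt_succ_iff.1 (Finset.mem_range.1 hi)) (fun l => ind (¬ f l))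
        fun _ => ind_le_one _
    have s2 : ∑ q ∈ (Finset.range (N + 1) ×ˢ Finset.range (N + 1)).filter (fun q => q.1 < q.2),
        T.J (fun x x' => ind (f (r q.1 x x') ∧ f (r q.2 x x'))) ≤
        (((N + 1) * (N + 1) : ℕ) : ℝ≥0∞) * (2 * ε) := by
      refine (Finset.sum_le_card_nsmul _ _ (2 * ε) fun q hq => ?_).trans ?_
      · simp only [Finset.mem_filter, Finset.mem_product, Finset.mem_range] at hq
        exact pair q.1 q.2 hq.2 (by omega)
      · rw [nsmul_eq_mul]
        refine mul_le_mul_left (Nat.cast_le.2 ?_) _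
        exact (Finset.card_filter_le _ _).trans (by simp)
    have big2 := big.trans (add_le_add (add_le_add le_rfl s1) (mul_le_mul_right s2 _))
    rw [← hM] at big2
    have hMt : M ≠ ∞ := ne_top_of_le_ne_top (by simp) hM1
    have big3 : (N : ℝ≥0∞) * M ≤ ((N + 1 : ℕ) : ℝ≥0∞) * γ +
        ((N + 1 : ℕ) : ℝ≥0∞) * ((((N + 1) * (N + 1) : ℕ) : ℝ≥0∞) * (2 * ε)) := by
      refine ENNReal.le_of_add_le_add_left hMt ?_
      rw [← add_assoc]
      refine le_trans (le_of_eq ?_) big2
      push_cast; ring
    calc (N : ℝ≥0∞) = N * 1 := (mul_one _).symm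
      _ ≤ N * (M + N * ε) := mul_le_mul_right T.J_one _
      _ = N * M + N * N * ε := by ring
      _ ≤ _ := add_le_add big3 le_rfl
      _ = _ := by push_cast; ring
  refine ENNReal.le_of_forall_pos_le_add fun ε hε _ => ?_
  set k : ℕ := 2 * (N + 1) ^ 3 + N * N with hk
  have hk0 : (k : ℝ≥0∞) ≠ 0 := by simp [hk]
  refine (main (ε / k) (ENNReal.div_pos (by simpa using hε.ne') (by simp))
    (ENNReal.div_ne_top (by simp) hk0)).trans (add_le_add le_rfl ENNReal.mul_div_le)

end Pool.Agent.H.Rot
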