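import Pool.Agent.H.MP_2e62d5_co.D

open scoped ENNReal Topology
open Filter Set

namespace Pool.Agent.H.Rot

noncomputable def ul (a : ℕ → ℝ≥0∞) : ℝ≥0∞ := ((hyperfilter ℕ).map a).lim

lemma ul_tendsto (a : ℕ → ℝ≥0∞) : Tendsto a (hyperfilter ℕ) (𝓝 (ul a)) :=
  ((hyperfilter ℕ).map a).le_nhds_lim

lemma hyper_le : (hyperfilter ℕ : Filter ℕ) ≤ atTop := by
  rw [← Nat.cofinite_eq_atTop]; exact hyperfilter_le_cofinite

noncomputable def U : Mean ℕ where
  E := ul
  add f g := tendsto_nhds_unique (ul_tendsto _) ((ul_tendsto f).add (ul_tendsto g))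
  mono f g h := le_of_tendsto_of_tendsto' (ul_tendsto f) (ul_tendsto g) h
  smul c f hc := tendsto_nhds_unique (ul_tendsto _)
    (ENNReal.Tendsto.const_mul (ul_tendsto f) (Or.inr hc))
  one := tendsto_nhds_unique (ul_tendsto _) tendsto_const_nhds

lemma U_congr {a b : ℕ → ℝ≥0∞} (h : ∀ᶠ k in atTop, a k = b k) : U.E a = U.E b :=
  tendsto_nhds_unique (ul_tendsto a) ((ul_tendsto b).congr' (by
    filter_upwards [hyper_le h] with k hk using hk.symm))

lemma U_inv : U.E (fun k => ((k + 1 : ℕ) : ℝ≥0∞)⁻¹) = 0 :=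
  tendsto_nhds_unique (ul_tendsto _)
    ((ENNReal.tendsto_inv_nat_nhds_zero.comp (tendsto_add_atTop_nat 1)).mono_left hyper_le)

noncomputable def avg (k : ℕ) : Mean ℕ where
  E a := ((k + 1 : ℕ) : ℝ≥0∞)⁻¹ * ∑ e ∈ Finset.range (k + 1), a e
  add f g := by rw [Finset.sum_add_distrib, mul_add]
  mono f g h := mul_le_mul_right (Finset.sum_le_sum fun e _ => h e) _
  smul c f _ := by rw [← Finset.mul_sum, mul_left_comm]
  one := by
    rw [Finset.sum_const, Finset.card_range, nsmul_eq_mul, mul_one]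
    exact ENNReal.inv_mul_cancel (by simp) (by simp)

noncomputable def BL : Mean ℕ := U.bind avg

lemma BL_shift {a : ℕ → ℝ≥0∞} (ha : ∀ e, a e ≤ 1) : BL.E (fun e => a (e + 1)) = BL.E a := by
  have key : ∀ p q : ℕ → ℝ≥0∞, (∀ k, ∑ e ∈ Finset.range (k + 1), p e ≤
      ∑ e ∈ Finset.range (k + 1), q e + 1) → BL.E p ≤ BL.E q := by
    intro p q h
    have : BL.E q = U.E (fun k => (avg k).E q + ((k + 1 : ℕ) : ℝ≥0∞)⁻¹) := by
      rw [U.add, U_inv, add_zero]; rfl
    rw [this]
    refine U.mono _ _ fun k => (mul_le_mul_right (h k) _).trans (le_of_eq ?_)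
    rw [mul_add, mul_one]; rfl
  refine le_antisymm (key _ _ fun k => ?_) (key _ _ fun k => ?_)
  · calc _ ≤ ∑ e ∈ Finset.range (k + 1), a (e + 1) + a 0 := le_self_add
      _ = ∑ e ∈ Finset.range (k + 1), a e + a (k + 1) := by
          rw [← Finset.sum_range_succ', ← Finset.sum_range_succ]
      _ ≤ _ := add_le_add le_rfl (ha _)
  · calc _ ≤ ∑ e ∈ Finset.range (k + 1), a e + a (k + 1) := le_self_add
      _ = ∑ e ∈ Finset.range (k + 1), a (e + 1) + a 0 := by
          rw [← Finset.sum_range_succ', ← Finset.sum_range_succ]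
      _ ≤ _ := add_le_add le_rfl (ha _)

noncomputable def Bm : ℕ → ℕ → Mean ℕ
  | 0, t => Mean.dirac t
  | k + 1, t => BL.bind (fun e => Bm k (t * (k + 1) ^ e))

lemma Bm_succ (k t : ℕ) (g : ℕ → ℝ≥0∞) :
    (Bm (k + 1) t).E g = BL.E (fun e => (Bm k (t * (k + 1) ^ e)).E g) := rfl

lemma Bm_scale (k : ℕ) : ∀ (s t : ℕ) (g : ℕ → ℝ≥0∞),
    (Bm k (s * t)).E g = (Bm k t).E (fun x => g (s * x)) := by
  induction k with
  | zero => intro s t g; rfl
  | succ k ih => intro s t g; simp only [Bm_succ, mul_assoc, ih]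

lemma Bm_inv {g : ℕ → ℝ≥0∞} (hg : ∀ x, g x ≤ 1) {r : ℕ} (hr : 1 ≤ r) (k : ℕ) :
    r ≤ k → ∀ t, (Bm k (r * t)).E g = (Bm k t).E g := by
  induction k with
  | zero => intro h; omega
  | succ k ih =>
    intro h t
    rcases Nat.lt_or_ge k r with h' | h'
    · obtain rfl : r = k + 1 := by omega
      rw [Bm_succ, Bm_succ, ← BL_shift (a := fun e => (Bm k (t * (k + 1) ^ e)).E g)
        fun e => Mean.le_const _ hg]
      congr 1
      funext e
      congr 2
      ring
    · simp only [Bm_succ, mul_assoc, ih h']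

lemma Bm_zero (k : ℕ) : ∀ t, t ≠ 0 → (Bm k t).E (fun x => ind (x = 0)) = 0 := by
  induction k with
  | zero => intro t ht; exact ind_neg ht
  | succ k ih =>
    intro t ht
    rw [Bm_succ]
    have : ∀ e, (Bm k (t * (k + 1) ^ e)).E (fun x => ind (x = 0)) = 0 :=
      fun e => ih _ (by positivity)
    simp only [this, Mean.zero]

/-- A dilation invariant mean on the positive integers. -/
noncomputable def rho : Mean ℕ := U.bind (fun k => Bm k 1)

lemma rho_inv {g : ℕ → ℝ≥0∞} (hg : ∀ x, g x ≤ 1) {r : ℕ} (hr : 1 ≤ r) :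
    rho.E (fun x => g (r * x)) = rho.E g := by
  refine U_congr ?_
  filter_upwards [eventually_ge_atTop r] with k hk
  rw [← Bm_scale, Bm_inv hg hr k hk]

lemma rho_small (M : ℕ) : rho.E (fun x => ind (x ≤ M)) = 0 := by
  rw [← rho_inv (fun _ => ind_le_one _) (r := M + 1) (by omega)]
  have h0 : rho.E (fun x => ind (x = 0)) = 0 := by
    show U.E (fun k => (Bm k 1).E (fun x => ind (x = 0))) = 0
    simp only [Bm_zero _ 1 one_ne_zero, Mean.zero]
  refine le_antisymm (le_trans (rho.mono _ _ fun x => ind_mono fun h => ?_) h0.le) (by simp)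
  by_contra hx
  have : (M + 1) * 1 ≤ (M + 1) * x := Nat.mul_le_mul_left _ (Nat.pos_of_ne_zero hx)
  omega

def P (l : List ℕ) : ℕ := (l.map (fun u => 1 + u)).prod

lemma P_cons (z : ℕ) (l : List ℕ) : P (z :: l) = (1 + z) * P l := by simp [P]
lemma P_append (a b : List ℕ) : P (a ++ b) = P a * P b := by simp [P]
lemma P_pos (l : List ℕ) : 0 < P l := by
  induction l with
  | nil => simp [P]
  | cons z l ih => rw [P_cons]; positivity

lemma P_small (k : ℕ) (hk : 1 ≤ k) (M : ℕ) : (En rho k).E (fun l => ind (P l ≤ M)) = 0 := by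
  obtain ⟨k, rfl⟩ := Nat.exists_eq_add_of_le' hk
  rw [En_succ]
  refine le_antisymm (le_trans (rho.mono _ _ fun z => Mean.le_const _ fun l =>
    ind_mono fun h => ?_) (rho_small M).le) (by simp)
  rw [P_cons] at h
  have := Nat.mul_le_mul_left (1 + z) (P_pos l)
  omega

lemma mul_to_add {g : ℕ → ℝ≥0∞} (hg : ∀ x, g x ≤ 1) (n : ℕ) : ∀ t, 1 ≤ t →
    (En rho n).E (fun l => g (t * P l)) = (En rho n).E (fun l => g (t + l.sum)) := by
  induction n with
  | zero => intro t _; simp [En_zero, P]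
  | succ n ih =>
    intro t ht
    rw [En_succ, En_succ]
    have := rho_inv (g := fun u => (En rho n).E (fun l => g (t + (u + l.sum))))
      (fun u => Mean.le_const _ fun l => hg _) ht
    simp only [List.sum_cons]
    rw [← this]
    congr 1
    funext z
    simp only [P_cons, ← mul_assoc]
    rw [ih _ (Nat.mul_pos ht (by omega))]
    congr 1
    funext l
    congr 1
    ring

theorem syndetic_product (S : Set ℕ) (L : ℕ) (hS : ∀ n, 1 ≤ n → ∃ s ∈ S, n ≤ s ∧ s ≤ n + L) :
    ∃ (c : ℕ) (a b : ℕ → ℕ), 1 ≤ c ∧ (∀ i, i < a i) ∧ (∀ j, j < b j) ∧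
      ∀ i j, c * a i * b j ∈ S := by
  classical
  by_contra hcon
  have h1 : ∀ c, 1 ≤ c → ((L + 1 : ℕ) : ℝ≥0∞) ≤ ((L + 1 + 1 : ℕ) : ℝ≥0∞) *
      (En rho (L + 1 + 1)).E (fun l => ind (c + l.sum ∉ S)) := by
    intro c hc
    rw [← mul_to_add (g := fun x => ind (x ∉ S)) (fun _ => ind_le_one _) _ c hc]
    refine rotation rho (L + 1) (fun l => c * P l ∈ S) (fun a b h => ?_) fun k hk hkN => ?_
    · rwa [P_append, mul_comm (P b), ← P_append]
    · by_contra hns
      obtain ⟨a, b, ha, hb, hab⟩ := pattern P P (P_small k hk) (P_small _ (by omega)) hns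
      refine hcon ⟨c, fun i => P (a i), fun j => P (b j), hc, ha, hb, fun i j => ?_⟩
      have := hab i j
      rwa [P_append, ← mul_assoc] at this
  have h2 : ∑ c ∈ Finset.range (L + 1), (En rho (L + 1 + 1)).E (fun l => ind (c + 1 + l.sum ∉ S))
      ≤ L := by
    rw [← Mean.sum]
    refine Mean.le_const _ fun l => ?_
    obtain ⟨s, hs, hs1, hs2⟩ := hS (1 + l.sum) (by omega)
    have hm : s - (1 + l.sum) ∈ Finset.range (L + 1) := Finset.mem_range.2 (by omega)
    rw [← Finset.add_sum_erase _ _ hm, ind_neg (by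
      rw [show s - (1 + l.sum) + 1 + l.sum = s by omega]; exact not_not.2 hs), zero_add]
    refine (Finset.sum_le_card_nsmul _ _ 1 fun _ _ => ind_le_one _).trans ?_
    rw [Finset.card_erase_of_mem hm]
    simp
  have h3 := Finset.sum_le_sum (s := Finset.range (L + 1)) fun c _ => h1 (c + 1) (by omega)
  rw [← Finset.mul_sum, Finset.sum_const, Finset.card_range, nsmul_eq_mul] at h3
  have h4 := h3.trans (mul_le_mul_right h2 _)
  have h5 : (L + 1) * (L + 1) ≤ (L + 1 + 1) * L := by exact_mod_cast h4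
  nlinarith

end Pool.Agent.H.Rot
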